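import Mathlib
import Pool.Agent.N751.FR.Stm

/-!
# Project FR, part RH (helper615): the number of the bad places of a family (Mason-Stothers)
-/

set_option autoImplicit false

namespace Pool.Agent.N615.FR

open Polynomial UniqueFactorizationMonoid Pool.Agent.N751.FR

section

variable {K : Type} [Field K]

theorem sum_le {S : Finset K[X]} (hS : ∀ P ∈ S, P.Monic ∧ Irreducible P) {e : ℕ} {F : K[X]}
    (hF : F ≠ 0) (h : ∀ P ∈ S, P ^ e ∣ F) : e * ∑ P ∈ S, P.natDegree ≤ F.natDegree := by
  have h1 : ∏ P ∈ S, P ^ e ∣ F := by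
    apply Finset.prod_dvd_of_coprime
    · intro P hP Q hQ hne
      apply IsCoprime.pow
      rw [(hS P hP).2.coprime_iff_not_dvd]
      intro hd
      exact hne (eq_of_monic_of_associated (hS P hP).1 (hS Q hQ).1
        ((hS P hP).2.associated_of_dvd (hS Q hQ).2 hd))
    · exact h
  have h2 := natDegree_le_of_dvd h1 hF
  rw [natDegree_prod_of_monic S (fun P => P ^ e) fun P hP => (hS P hP).1.pow e] at h2
  rw [Finset.mul_sum]
  simpa [natDegree_pow] using h2

theorem pow_dvd_of {P F : K[X]} {e : ℕ} (h : P ∣ F) (he : e ∣ multiplicity P F) : P ^ e ∣ F := by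
  have h1 : multiplicity P F ≠ 0 := by
    rw [Ne, multiplicity_eq_zero]
    exact fun h' => h' h
  exact (pow_dvd_pow P (Nat.le_of_dvd (Nat.pos_of_ne_zero h1) he)).trans (pow_multiplicity_dvd P F)

end

open Classical in
theorem t : StmRH := by
  intro K _ _ A B hc hB hN
  set D := A - 1728 * B with hD
  set N := max A.natDegree B.natDegree with hNdef
  have h1728 : (1728 : K) ≠ 0 := by norm_num
  have hC : (1728 : K[X]) = C (1728 : K) := (map_ofNat C 1728).symm
  have hu : IsUnit (1728 : K[X]) := by
    rw [hC]; exact isUnit_C.2 (isUnit_iff_ne_zero.2 h1728)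
  have hBN : B.natDegree ≤ N := le_max_right _ _
  have hAN : A.natDegree ≤ N := le_max_left _ _
  have hA0 : A ≠ 0 := by
    intro h
    rw [h, isCoprime_zero_left] at hc
    have h1 := natDegree_eq_zero_of_isUnit hc
    rw [h, natDegree_zero] at hNdef
    omega
  have hD0 : D ≠ 0 := by
    intro h
    have h1 : A = 1728 * B := by linear_combination h
    have h2 : IsUnit B := by
      rw [h1] at hc
      exact hc.isUnit_of_dvd' (dvd_mul_left _ _) dvd_rfl
    have h3 := natDegree_eq_zero_of_isUnit h2
    have h4 : A.natDegree = 0 := by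
      rw [h1]; exact natDegree_eq_zero_of_isUnit (hu.mul h2)
    omega
  have hDN : D.natDegree ≤ N := by
    refine (natDegree_sub_le _ _).trans (max_le hAN ?_)
    rw [hC]
    exact (natDegree_C_mul_le _ _).trans hBN
  have hb0 : -(1728 * B) ≠ 0 := neg_ne_zero.2 (mul_ne_zero hu.ne_zero hB)
  have hco : IsCoprime A (-(1728 * B)) := by
    rw [IsCoprime.neg_right_iff]
    exact (isCoprime_mul_unit_left_right hu A B).2 hc
  have habc := Polynomial.abc hA0 hb0 (neg_ne_zero.2 hD0) hco (by rw [hD]; ring)
  have hbdeg : (-(1728 * B)).natDegree = B.natDegree := by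
    rw [natDegree_neg, hC, natDegree_C_mul h1728]
  have hrad : N + 1 ≤ (radical (A * -(1728 * B) * -D)).natDegree := by
    rcases habc with h | h
    · rw [hbdeg] at h
      rcases le_total A.natDegree B.natDegree with h1 | h1
      · rw [hNdef, max_eq_right h1]; exact h.2.1
      · rw [hNdef, max_eq_left h1]; exact h.1
    · exfalso
      have h1 := natDegree_eq_zero_of_derivative_eq_zero h.1
      have h2 := natDegree_eq_zero_of_derivative_eq_zero h.2.1
      rw [hbdeg] at h2
      omega
  have hass : Associated (A * -(1728 * B) * -D) (A * D * B) := by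
    have e : A * -(1728 * B) * -D = (A * D * B) * 1728 := by ring
    rw [e]
    exact (associated_mul_unit_left _ _ hu)
  rw [radical_eq_of_associated hass] at hrad
  set U : Finset K[X] := (normalizedFactors (A * D * B)).toFinset with hU
  have hUp : ∀ P ∈ U, P.Monic ∧ Irreducible P := by
    intro P hP
    rw [hU, Multiset.mem_toFinset] at hP
    have h1 := irreducible_of_normalized_factor P hP
    refine ⟨?_, h1⟩
    rw [← normalize_normalized_factor P hP]
    exact monic_normalize h1.ne_zero
  have hradU : (radical (A * D * B)).natDegree = ∑ P ∈ U, P.natDegree := by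
    have h1 : radical (A * D * B) = ∏ P ∈ U, P := by
      unfold radical
      rw [hU, toFinset_normalizedFactors]
      rfl
    rw [h1, natDegree_prod_of_monic U (fun P => P) fun P hP => (hUp P hP).1]
  rw [hradU] at hrad
  have hbad : badPl A B = U.filter fun P =>
      P ∣ B ∨ ¬ 3 ∣ multiplicity P A ∨ ¬ 2 ∣ multiplicity P D := rfl
  set UA : Finset K[X] := U.filter fun P => P ∣ A ∧ 3 ∣ multiplicity P A with hUA
  set UD : Finset K[X] := U.filter fun P => P ∣ D ∧ 2 ∣ multiplicity P D with hUD
  have hsub : U ⊆ badPl A B ∪ (UA ∪ UD) := by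
    intro P hP
    rw [hbad, hUA, hUD, Finset.mem_union, Finset.mem_union, Finset.mem_filter, Finset.mem_filter,
      Finset.mem_filter]
    by_cases h1 : P ∣ B ∨ ¬ 3 ∣ multiplicity P A ∨ ¬ 2 ∣ multiplicity P D
    · exact Or.inl ⟨hP, h1⟩
    · push Not at h1
      right
      have h2 : P ∣ A * D * B := by
        rw [hU, Multiset.mem_toFinset] at hP
        exact dvd_of_mem_normalizedFactors hP
      rcases (hUp P hP).2.prime.dvd_or_dvd h2 with h3 | h3
      · rcases (hUp P hP).2.prime.dvd_or_dvd h3 with h4 | h4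
        · exact Or.inl ⟨hP, h4, h1.2.1⟩
        · exact Or.inr ⟨hP, h4, h1.2.2⟩
      · exact absurd h3 h1.1
  have hs1 : ∑ P ∈ U, P.natDegree ≤ ∑ P ∈ badPl A B, P.natDegree +
      (∑ P ∈ UA, P.natDegree + ∑ P ∈ UD, P.natDegree) := by
    refine (Finset.sum_le_sum_of_subset hsub).trans ?_
    have h1 := Finset.sum_union_inter (s₁ := badPl A B) (s₂ := UA ∪ UD)
      (f := fun P : K[X] => P.natDegree)
    have h2 := Finset.sum_union_inter (s₁ := UA) (s₂ := UD) (f := fun P : K[X] => P.natDegree)
    omega
  have h3 := sum_le (S := UA) (e := 3) (F := A)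
    (fun P hP => hUp P (Finset.mem_filter.1 hP).1) hA0
    (fun P hP => pow_dvd_of (Finset.mem_filter.1 hP).2.1 (Finset.mem_filter.1 hP).2.2)
  have h4 := sum_le (S := UD) (e := 2) (F := D)
    (fun P hP => hUp P (Finset.mem_filter.1 hP).1) hD0
    (fun P hP => pow_dvd_of (Finset.mem_filter.1 hP).2.1 (Finset.mem_filter.1 hP).2.2)
  omega

end Pool.Agent.N615.FR
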